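import Mathlib

set_option autoImplicit false

namespace Pool.Agent.Results.MP_106823_nt.OmegaDivergent

/-- The trajectory `x_0 = x`, `x_n = (3 x_{n-1} + 1) / 2^{a_n}`, where `a_n` is the exponent of `2`
in `3 x_{n-1} + 1`. -/
def traj (x : ℕ) : ℕ → ℕ
  | 0 => x
  | (n + 1) => (3 * traj x n + 1) / 2 ^ padicValNat 2 (3 * traj x n + 1)

/-- The `E`-sequence of `x`: `a_n` is the exponent of `2` in `3 x_{n-1} + 1`, for `n ≥ 1`. -/
def eseq (x n : ℕ) : ℕ := padicValNat 2 (3 * traj x (n - 1) + 1)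

open Classical in
/-- `q_n = 2` if `n ∈ {2², 3², 4², …}` and `q_n = 1` otherwise. -/
noncomputable def q (n : ℕ) : ℕ := if ∃ k : ℕ, 2 ≤ k ∧ n = k ^ 2 then 2 else 1

/-! ### The linear forms -/

def I (t : ℕ → ℤ) : ℕ → ℕ → ℤ
  | 0, K => t K
  | (n + 1), K => 9 ^ n * I t n (K + 1) - 4 ^ n * I t n K

theorem I_zero (t : ℕ → ℤ) (K : ℕ) : I t 0 K = t K := by rw [I]

theorem I_succ (t : ℕ → ℤ) (n K : ℕ) :
    I t (n + 1) K = 9 ^ n * I t n (K + 1) - 4 ^ n * I t n K := by rw [I]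

theorem I_rec (t : ℕ → ℤ)
    (hrec : ∀ K, 1 ≤ K → (4 : ℤ) ^ (K + 1) * t (K + 1) = 3 ^ (2 * K + 1) * (t K + 1))
    (n : ℕ) : ∀ K, 1 ≤ K →
      (3 : ℤ) ^ (2 * K + 3) * I t (n + 1) K =
        4 ^ (K + n + 1) * (4 * I t n (K + 2) - 9 * I t n (K + 1)) := by
  induction n with
  | zero =>
    intro K hK
    rw [I_succ, I_zero, I_zero, I_zero]
    have h1 := hrec K hK
    have h2 := hrec (K + 1) (by omega)
    have e1 : (4 : ℤ) ^ (K + 1 + 1) = 4 * 4 ^ (K + 1) := by ring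
    have e2 : (3 : ℤ) ^ (2 * (K + 1) + 1) = 9 * 3 ^ (2 * K + 1) := by ring
    have e3 : (3 : ℤ) ^ (2 * K + 3) = 9 * 3 ^ (2 * K + 1) := by ring
    rw [e1, e2] at h2
    rw [e3]
    simp only [pow_zero, one_mul, add_zero]
    linear_combination 9 * h1 - h2
  | succ n ih =>
    intro K hK
    have h1 := ih K hK
    have h2 := ih (K + 1) (by omega)
    have s1 := I_succ t (n + 1) K
    have s2 := I_succ t n (K + 2)
    have s3 := I_succ t n (K + 1)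
    have e1 : (3 : ℤ) ^ (2 * (K + 1) + 3) = 9 * 3 ^ (2 * K + 3) := by ring
    have e2 : (4 : ℤ) ^ (K + 1 + n + 1) = 4 * 4 ^ (K + n + 1) := by ring
    have e3 : (4 : ℤ) ^ (K + (n + 1) + 1) = 4 * 4 ^ (K + n + 1) := by ring
    have e4 : (9 : ℤ) ^ (n + 1) = 9 * 9 ^ n := by ring
    have e5 : (4 : ℤ) ^ (n + 1) = 4 * 4 ^ n := by ring
    rw [e1, e2] at h2
    rw [e4, e5] at s1
    rw [e3]
    have e6 : K + 1 + 2 = K + 2 + 1 := rfl
    have e7 : K + 1 + 1 = K + 2 := rfl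
    rw [e6, e7] at h2
    rw [e7] at s3
    set A : ℤ := 3 ^ (2 * K + 3)
    set B : ℤ := 4 ^ (K + n + 1)
    linear_combination A * s1 + 9 ^ n * h2 - 4 * 4 ^ n * h1 - 16 * B * s2 + 36 * B * s3

theorem I_val (t : ℕ → ℤ) (hodd : ∀ K, 1 ≤ K → Odd (t K))
    (hrec : ∀ K, 1 ≤ K → (4 : ℤ) ^ (K + 1) * t (K + 1) = 3 ^ (2 * K + 1) * (t K + 1))
    (n : ℕ) : ∀ K, 1 ≤ K → ∃ o : ℤ, Odd o ∧ I t n K = 4 ^ (n ^ 2 + K * n) * o := by
  induction n with
  | zero =>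
    intro K hK
    exact ⟨t K, hodd K hK, by rw [I_zero]; simp⟩
  | succ n ih =>
    intro K hK
    obtain ⟨o1, ho1, h1⟩ := ih (K + 1) (by omega)
    obtain ⟨o2, ho2, h2⟩ := ih (K + 2) (by omega)
    have h := I_rec t hrec n K hK
    rw [h1, h2] at h
    have e1 : (4 : ℤ) ^ (K + n + 1) * (4 * (4 ^ (n ^ 2 + (K + 2) * n) * o2) -
        9 * (4 ^ (n ^ 2 + (K + 1) * n) * o1)) =
        4 ^ ((n + 1) ^ 2 + K * (n + 1)) * (4 ^ (n + 1) * o2 - 9 * o1) := by ring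
    rw [e1] at h
    have hcop : IsCoprime ((4 : ℤ) ^ ((n + 1) ^ 2 + K * (n + 1))) (3 ^ (2 * K + 3)) := by
      apply IsCoprime.pow
      norm_num
    have hdvd : (4 : ℤ) ^ ((n + 1) ^ 2 + K * (n + 1)) ∣ I t (n + 1) K :=
      hcop.dvd_of_dvd_mul_left ⟨_, h⟩
    obtain ⟨o, ho⟩ := hdvd
    refine ⟨o, ?_, ho⟩
    have h4 : (3 : ℤ) ^ (2 * K + 3) * o = 4 ^ (n + 1) * o2 - 9 * o1 := by
      rw [ho] at h
      have h4pos : (4 : ℤ) ^ ((n + 1) ^ 2 + K * (n + 1)) ≠ 0 := by positivity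
      apply mul_left_cancel₀ h4pos
      linear_combination h
    have h5 : Odd ((3 : ℤ) ^ (2 * K + 3) * o) := by
      rw [h4]
      have h6 : Even ((4 : ℤ) ^ (n + 1) * o2) := by
        apply Even.mul_right
        exact (by decide : Even (4 : ℤ)).pow_of_ne_zero (by omega)
      have h7 : Odd ((9 : ℤ) * o1) := Odd.mul (by decide) ho1
      exact Even.sub_odd h6 h7
    exact (Int.odd_mul.mp h5).2

theorem I_bound (t : ℕ → ℤ) (T : ℕ → ℝ) (hT : ∀ K, T K ≤ T (K + 1))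
    (ht : ∀ K, 1 ≤ K → |(t K : ℝ)| ≤ T K) (n : ℕ) : ∀ K, 1 ≤ K →
      |(I t n K : ℝ)| ≤ 2 ^ n * 3 ^ (n * (n - 1)) * T (K + n) := by
  induction n with
  | zero =>
    intro K hK
    rw [I_zero]
    simpa using ht K hK
  | succ n ih =>
    intro K hK
    have h1 := ih (K + 1) (by omega)
    have h2 := ih K hK
    rw [I_succ]
    push_cast
    have e0 : (n + 1) * n = n * (n - 1) + 2 * n := by
      rcases n with _ | n
      · rfl
      · simp only [Nat.add_sub_cancel]; ring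
    have e1 : (3 : ℝ) ^ ((n + 1) * n) = 3 ^ (n * (n - 1)) * 9 ^ n := by
      rw [e0, pow_add, pow_mul 3 2 n]; norm_num
    rw [e1]
    have e2 : K + 1 + n = K + (n + 1) := by ring
    rw [e2] at h1
    have h3 : T (K + n) ≤ T (K + (n + 1)) := hT (K + n)
    set c : ℝ := 2 ^ n * 3 ^ (n * (n - 1)) with hc
    have hc0 : 0 ≤ c := by positivity
    have h4 : (4 : ℝ) ^ n ≤ 9 ^ n := pow_le_pow_left₀ (by norm_num) (by norm_num) n
    calc |(9 : ℝ) ^ n * (I t n (K + 1) : ℝ) - 4 ^ n * (I t n K : ℝ)|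
        ≤ |(9 : ℝ) ^ n * (I t n (K + 1) : ℝ)| + |4 ^ n * (I t n K : ℝ)| := abs_sub _ _
      _ = 9 ^ n * |(I t n (K + 1) : ℝ)| + 4 ^ n * |(I t n K : ℝ)| := by
          rw [abs_mul, abs_mul, abs_of_nonneg (by positivity : (0 : ℝ) ≤ 9 ^ n),
            abs_of_nonneg (by positivity : (0 : ℝ) ≤ 4 ^ n)]
      _ ≤ 9 ^ n * (c * T (K + (n + 1))) + 9 ^ n * (c * T (K + (n + 1))) := by
          apply add_le_add
          · exact mul_le_mul_of_nonneg_left h1 (by positivity)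
          · apply mul_le_mul h4 _ (abs_nonneg _) (by positivity)
            exact h2.trans (mul_le_mul_of_nonneg_left h3 hc0)
      _ = 2 ^ (n + 1) * (3 ^ (n * (n - 1)) * 9 ^ n) * T (K + (n + 1)) := by
          rw [hc]; ring

theorem no_seq (t : ℕ → ℤ) (hpos : ∀ K, 1 ≤ K → 0 < t K) (hodd : ∀ K, 1 ≤ K → Odd (t K))
    (hrec : ∀ K, 1 ≤ K → (4 : ℤ) ^ (K + 1) * t (K + 1) = 3 ^ (2 * K + 1) * (t K + 1)) :
    False := by
  -- growth of `t`
  set C : ℝ := ((t 1 : ℤ) : ℝ) with hC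
  have hC1 : 1 ≤ C := by
    rw [hC]; exact_mod_cast hpos 1 le_rfl
  set T : ℕ → ℝ := fun K => C * (3 / 2) ^ (K ^ 2) with hT
  have htT : ∀ K, 1 ≤ K → |(t K : ℝ)| ≤ T K := by
    intro K hK
    rw [abs_of_pos (by exact_mod_cast hpos K hK)]
    induction K, hK using Nat.le_induction with
    | base =>
      simp only [hT]
      rw [← hC]
      norm_num
      linarith
    | succ K hK ih =>
      have h1 := hrec K hK
      have h1' : (4 : ℝ) ^ (K + 1) * (t (K + 1) : ℝ) = 3 ^ (2 * K + 1) * ((t K : ℝ) + 1) := by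
        exact_mod_cast h1
      have h2 : (1 : ℝ) ≤ t K := by exact_mod_cast hpos K hK
      have h3 : (t (K + 1) : ℝ) ≤ (3 / 2) ^ (2 * K + 1) * (t K : ℝ) := by
        have h4 : (4 : ℝ) ^ (K + 1) * (t (K + 1) : ℝ) ≤
            4 ^ (K + 1) * ((3 / 2) ^ (2 * K + 1) * (t K : ℝ)) := by
          rw [h1']
          have e : (4 : ℝ) ^ (K + 1) * ((3 / 2) ^ (2 * K + 1) * (t K : ℝ)) =
              3 ^ (2 * K + 1) * (2 * (t K : ℝ)) := by
            rw [div_pow]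
            have e2 : (4 : ℝ) ^ (K + 1) = 2 * 2 ^ (2 * K + 1) := by
              rw [show (4 : ℝ) = 2 ^ 2 by norm_num, ← pow_mul]; ring
            rw [e2]
            field_simp
          rw [e]
          apply mul_le_mul_of_nonneg_left _ (by positivity)
          linarith
        exact le_of_mul_le_mul_left h4 (by positivity)
      calc (t (K + 1) : ℝ) ≤ (3 / 2) ^ (2 * K + 1) * (t K : ℝ) := h3
        _ ≤ (3 / 2) ^ (2 * K + 1) * (C * (3 / 2) ^ (K ^ 2)) :=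
            mul_le_mul_of_nonneg_left ih (by positivity)
        _ = C * (3 / 2) ^ ((K + 1) ^ 2) := by ring
  have hTm : ∀ K, T K ≤ T (K + 1) := fun K => by
    simp only [hT]
    apply mul_le_mul_of_nonneg_left _ (by linarith)
    exact pow_le_pow_right₀ (by norm_num) (Nat.pow_le_pow_left (Nat.le_succ K) 2)
  -- the contradiction
  have key : ∀ m : ℕ, 1 ≤ m → ((2 : ℝ) ^ 21 / 3 ^ 13) ^ m ≤ C := by
    intro m hm
    obtain ⟨o, ho, h1⟩ := I_val t hodd hrec (2 * m) m hm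
    have h2 := I_bound t T hTm htT (2 * m) m hm
    have ho1 : (1 : ℝ) ≤ |(o : ℝ)| := by
      have : o ≠ 0 := by rintro rfl; simp at ho
      have : 1 ≤ |o| := Int.one_le_abs this
      exact_mod_cast this
    rw [h1] at h2
    push_cast at h2
    rw [abs_mul, abs_of_nonneg (by positivity : (0 : ℝ) ≤ 4 ^ ((2 * m) ^ 2 + m * (2 * m)))] at h2
    have h3 : (4 : ℝ) ^ ((2 * m) ^ 2 + m * (2 * m)) ≤
        2 ^ (2 * m) * 3 ^ (2 * m * (2 * m - 1)) * T (m + 2 * m) := by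
      refine le_trans ?_ h2
      nlinarith [show (0 : ℝ) < 4 ^ ((2 * m) ^ 2 + m * (2 * m)) by positivity]
    have e1 : (4 : ℝ) ^ ((2 * m) ^ 2 + m * (2 * m)) = 2 ^ (12 * m ^ 2) := by
      rw [show (4 : ℝ) = 2 ^ 2 by norm_num, ← pow_mul]; congr 1; ring
    have e2 : T (m + 2 * m) = C * (3 ^ (9 * m ^ 2) / 2 ^ (9 * m ^ 2)) := by
      simp only [hT]
      rw [← div_pow]; congr 2; ring
    rw [e1, e2] at h3
    have h4 : (2 : ℝ) ^ (12 * m ^ 2) * 2 ^ (9 * m ^ 2) ≤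
        2 ^ (2 * m) * 3 ^ (2 * m * (2 * m - 1)) * C * 3 ^ (9 * m ^ 2) := by
      have := mul_le_mul_of_nonneg_right h3 (by positivity : (0 : ℝ) ≤ 2 ^ (9 * m ^ 2))
      have e3 : 2 ^ (2 * m) * 3 ^ (2 * m * (2 * m - 1)) * (C * (3 ^ (9 * m ^ 2) / 2 ^ (9 * m ^ 2))) *
          2 ^ (9 * m ^ 2) = 2 ^ (2 * m) * 3 ^ (2 * m * (2 * m - 1)) * C * 3 ^ (9 * m ^ 2) := by
        field_simp
      rw [e3] at this
      exact this
    have h5 : (2 : ℝ) ^ (2 * m) * 3 ^ (2 * m * (2 * m - 1)) ≤ 3 ^ (4 * m ^ 2) := by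
      have e4 : 4 * m ^ 2 = 2 * m + 2 * m * (2 * m - 1) := by
        obtain ⟨r, rfl⟩ : ∃ r, m = r + 1 := ⟨m - 1, by omega⟩
        have : 2 * (r + 1) - 1 = 2 * r + 1 := by omega
        rw [this]; ring
      rw [e4, pow_add]
      apply mul_le_mul_of_nonneg_right _ (by positivity)
      exact pow_le_pow_left₀ (by norm_num) (by norm_num) _
    have h6 : ((2 : ℝ) ^ 21) ^ (m ^ 2) ≤ C * (3 ^ 13) ^ (m ^ 2) := by
      calc ((2 : ℝ) ^ 21) ^ (m ^ 2) = 2 ^ (12 * m ^ 2) * 2 ^ (9 * m ^ 2) := by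
            rw [← pow_mul, ← pow_add]; congr 1; ring
        _ ≤ 2 ^ (2 * m) * 3 ^ (2 * m * (2 * m - 1)) * C * 3 ^ (9 * m ^ 2) := h4
        _ = (2 ^ (2 * m) * 3 ^ (2 * m * (2 * m - 1))) * (C * 3 ^ (9 * m ^ 2)) := by ring
        _ ≤ 3 ^ (4 * m ^ 2) * (C * 3 ^ (9 * m ^ 2)) :=
            mul_le_mul_of_nonneg_right h5 (by positivity)
        _ = C * (3 ^ 13) ^ (m ^ 2) := by
            rw [← pow_mul]
            have : 13 * m ^ 2 = 4 * m ^ 2 + 9 * m ^ 2 := by ring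
            rw [this, pow_add]; ring
    have h7 : ((2 : ℝ) ^ 21 / 3 ^ 13) ^ (m ^ 2) ≤ C := by
      rw [div_pow, div_le_iff₀ (by positivity)]
      exact h6
    refine le_trans ?_ h7
    apply pow_le_pow_right₀
    · norm_num
    · nlinarith
  have hgt : (1 : ℝ) < 2 ^ 21 / 3 ^ 13 := by norm_num
  obtain ⟨n, hn⟩ := pow_unbounded_of_one_lt C hgt
  have h1 := key (n + 1) (by omega)
  have h2 : ((2 : ℝ) ^ 21 / 3 ^ 13) ^ n ≤ (2 ^ 21 / 3 ^ 13) ^ (n + 1) :=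
    pow_le_pow_right₀ hgt.le (by omega)
  linarith

/-! ### The trajectory -/

theorem q_sq {k : ℕ} (hk : 2 ≤ k) : q (k ^ 2) = 2 := by
  unfold q; rw [if_pos ⟨k, hk, rfl⟩]

theorem q_between {k n : ℕ} (h1 : k ^ 2 < n) (h2 : n < (k + 1) ^ 2) : q n = 1 := by
  unfold q
  rw [if_neg]
  rintro ⟨j, _, rfl⟩
  have h3 : k < j := lt_of_pow_lt_pow_left₀ 2 (by omega) h1
  have h4 : j < k + 1 := lt_of_pow_lt_pow_left₀ 2 (by omega) h2
  omega

theorem step {x : ℕ} (h : ∀ n, 1 ≤ n → eseq x n = q n) (n : ℕ) :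
    2 ^ q (n + 1) * traj x (n + 1) = 3 * traj x n + 1 := by
  rw [← h (n + 1) (by omega)]
  unfold eseq
  rw [Nat.add_sub_cancel, traj]
  exact Nat.mul_div_cancel' pow_padicValNat_dvd

theorem traj_odd {x : ℕ} (hx : Odd x) (n : ℕ) : Odd (traj x n) := by
  rcases n with _ | n
  · rw [traj]; exact hx
  · rw [traj]
    have h1 : 3 * traj x n + 1 ≠ 0 := by omega
    have h2 := Nat.not_dvd_ordCompl Nat.prime_two h1
    rw [Nat.factorization_def _ Nat.prime_two] at h2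
    exact Nat.not_even_iff_odd.mp (fun he => h2 he.two_dvd)

/-- No odd positive integer has `(q_n)` as its `E`-sequence. -/
theorem result : ¬ ∃ x : ℕ, 0 < x ∧ Odd x ∧ ∀ n, 1 ≤ n → eseq x n = q n := by
  rintro ⟨x, hx0, hxo, h⟩
  refine no_seq (fun K => 1 + 2 * (traj x (K ^ 2) : ℤ)) ?_ ?_ ?_
  · intro K _; positivity
  · intro K _; exact ⟨traj x (K ^ 2), by ring⟩
  · intro K hK
    have h1 : ∀ i, i ≤ 2 * K → (2 : ℤ) ^ i * ((traj x (K ^ 2 + i) : ℤ) + 1) =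
        3 ^ i * ((traj x (K ^ 2) : ℤ) + 1) := by
      intro i
      induction i with
      | zero => intro _; simp
      | succ i ih =>
        intro hi
        have h2 := ih (by omega)
        have h3 := step h (K ^ 2 + i)
        rw [q_between (k := K) (by omega) (by
          have : (K + 1) ^ 2 = K ^ 2 + 2 * K + 1 := by ring
          omega), pow_one] at h3
        have h3' : 2 * (traj x (K ^ 2 + i + 1) : ℤ) = 3 * (traj x (K ^ 2 + i) : ℤ) + 1 := by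
          exact_mod_cast h3
        rw [show K ^ 2 + (i + 1) = K ^ 2 + i + 1 from rfl, pow_succ (2 : ℤ) i,
          pow_succ (3 : ℤ) i]
        set X : ℤ := (traj x (K ^ 2 + i + 1) : ℤ)
        set Y : ℤ := (traj x (K ^ 2 + i) : ℤ)
        set Z : ℤ := (traj x (K ^ 2) : ℤ)
        linear_combination 3 * h2 + 2 ^ i * h3'
    have h2 := h1 (2 * K) le_rfl
    have h3 := step h (K ^ 2 + 2 * K)
    have e1 : K ^ 2 + 2 * K + 1 = (K + 1) ^ 2 := by ring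
    rw [e1, q_sq (by omega)] at h3
    have h3' : 4 * (traj x ((K + 1) ^ 2) : ℤ) = 3 * (traj x (K ^ 2 + 2 * K) : ℤ) + 1 := by
      have : (2 : ℕ) ^ 2 = 4 := by norm_num
      rw [this] at h3
      exact_mod_cast h3
    have e2 : (4 : ℤ) ^ (K + 1) = 4 * 2 ^ (2 * K) := by
      rw [pow_succ, pow_mul]; norm_num; ring
    have e3 : (3 : ℤ) ^ (2 * K + 1) = 3 * 3 ^ (2 * K) := by rw [pow_succ]; ring
    show (4 : ℤ) ^ (K + 1) * (1 + 2 * (traj x ((K + 1) ^ 2) : ℤ)) =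
      3 ^ (2 * K + 1) * (1 + 2 * (traj x (K ^ 2) : ℤ) + 1)
    rw [e2, e3]
    linear_combination 2 * 2 ^ (2 * K) * h3' + 6 * h2

end Pool.Agent.Results.MP_106823_nt.OmegaDivergent
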